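import Pool.Agent.helper74.XP.SpecP

/-!
# xp: module INQ (the scales of a long cycle, compared with finitely many fixed cycles)
-/

set_option autoImplicit false

open Complex Metric Set Filter Topology MeasureTheory MPS PPS Pool.Agent.helper16.Multibrot

noncomputable section

namespace XPP

theorem INQ_orb (f : Polynomial ℂ) (O : CY f) (i : ZMod O.k) (m : ℕ) :
    (fun w : ℂ => f.eval w)^[m] (O.b i) = O.b (i + (m : ZMod O.k)) := by
  induction m with
  | zero => simp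
  | succ m ih =>
    rw [Function.iterate_succ_apply', ih, O.cyc.step]
    congr 1
    push_cast
    ring

theorem INQ_cyc (f : Polynomial ℂ) (O : CY f) (i : ZMod O.k) :
    (fun w : ℂ => f.eval w)^[O.k] (O.b i) = O.b i := by
  rw [INQ_orb]
  congr 1
  simp

theorem INQ_per (f : Polynomial ℂ) (O : CY f) (i : ZMod O.k) :
    Function.minimalPeriod (fun w : ℂ => f.eval w) (O.b i) = O.k := by
  apply Nat.dvd_antisymm
  · apply Function.IsPeriodicPt.minimalPeriod_dvd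
    exact INQ_cyc f O i
  · have h1 := Function.iterate_minimalPeriod (f := fun w : ℂ => f.eval w) (x := O.b i)
    rw [INQ_orb] at h1
    have h2 := O.cyc.inj h1
    have h3 : ((Function.minimalPeriod (fun w : ℂ => f.eval w) (O.b i) : ℕ) : ZMod O.k) = 0 := by
      have := congrArg (fun x => x - i) h2
      simpa using this
    exact (ZMod.natCast_eq_zero_iff _ _).1 h3

theorem INQ_rep (hZCY : ZCY_stmt) (f : Polynomial ℂ) (O : CY f) (i : ZMod O.k) :
    Rep f O.k (O.b i) := by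
  have hc : Cyc f O.k (O.b i) := ⟨Nat.pos_of_ne_zero O.hk.out, INQ_per f O i⟩
  refine ⟨hc, ?_⟩
  obtain ⟨b', _, _, _, h4, h5, _⟩ := hZCY f O.k (O.b i) hc
  rw [← h5]
  have h6 : ∀ l : ZMod O.k, b' l = O.b (i + l) := by
    intro l
    have h7 := h4 l.val
    rw [ZMod.natCast_zmod_val] at h7
    rw [h7, INQ_orb, ZMod.natCast_zmod_val]
  have h8 : rho f b' = rho f O.b := by
    unfold PPS.rho
    rw [← Equiv.prod_comp (Equiv.addLeft i) fun l => PPS.fd f (O.b l)]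
    refine Finset.prod_congr rfl fun l _ => ?_
    rw [h6]
    rfl
  rw [h8]
  exact O.rep

/-- the sum of the bounds of the terms of the differentials. -/
def INQ_S {f : Polynomial ℂ} (J : Finset ℕ) (C : ℕ → CY f) : ℝ :=
  ∑ j ∈ J, ∑ i, (4 + 2 * ‖(C j).g i‖)

theorem INQ_S0 {f : Polynomial ℂ} (J : Finset ℕ) (C : ℕ → CY f) : 0 ≤ INQ_S J C := by
  unfold INQ_S
  exact Finset.sum_nonneg fun j _ => Finset.sum_nonneg fun i _ => by positivity

theorem INQ_term (A t : ℝ) (z b g : ℂ) (hA : 1 ≤ A) (ht : 0 < t) (ht1 : t ≤ 1)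
    (hz : A * t / 2 ≤ ‖z - b‖) :
    t ^ 2 * ‖1 / (z - b) ^ 2 + g / (z - b)‖ ≤ (4 + 2 * ‖g‖) / A := by
  have hA0 : 0 < A := by linarith
  have hAt : 0 < A * t / 2 := by positivity
  have hz0 : 0 < ‖z - b‖ := lt_of_lt_of_le hAt hz
  have h1 : ‖1 / (z - b) ^ 2 + g / (z - b)‖ ≤ 1 / ‖z - b‖ ^ 2 + ‖g‖ / ‖z - b‖ := by
    refine (norm_add_le _ _).trans ?_
    rw [norm_div, norm_div, norm_pow, norm_one]
  have h2 : 1 / ‖z - b‖ ^ 2 ≤ 1 / (A * t / 2) ^ 2 :=
    one_div_le_one_div_of_le (by positivity) (pow_le_pow_left₀ hAt.le hz 2)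
  have h3 : ‖g‖ / ‖z - b‖ ≤ ‖g‖ / (A * t / 2) :=
    div_le_div_of_nonneg_left (norm_nonneg _) hAt hz
  have h4 : t ^ 2 * ‖1 / (z - b) ^ 2 + g / (z - b)‖ ≤
      t ^ 2 * (1 / (A * t / 2) ^ 2 + ‖g‖ / (A * t / 2)) :=
    mul_le_mul_of_nonneg_left (h1.trans (add_le_add h2 h3)) (by positivity)
  refine h4.trans ?_
  have h5 : t ^ 2 * (1 / (A * t / 2) ^ 2 + ‖g‖ / (A * t / 2)) = (4 / A + 2 * ‖g‖ * t) / A := by
    field_simp
    ring
  rw [h5]
  have h6 : 4 / A ≤ 4 := by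
    rw [div_le_iff₀ hA0]
    linarith
  have h7 : 2 * ‖g‖ * t ≤ 2 * ‖g‖ := by
    have := norm_nonneg g
    nlinarith
  exact div_le_div_of_nonneg_right (by linarith) hA0.le

theorem INQ (hZCY : ZCY_stmt) (hSMA : SMA_stmt) (hINV : INV_stmt) : INQ_stmt := by
  intro f J C M ε rad hf hε hrad
  set S : ℝ := INQ_S J C with hS
  have hS0 : 0 ≤ S := INQ_S0 J C
  set A : ℝ := 1 + 2 / ε + |M| * S / ε with hA
  have hA1 : 1 ≤ A := by
    have h1 : 0 ≤ 2 / ε := by positivity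
    have h2 : 0 ≤ |M| * S / ε := by positivity
    linarith
  have hA0 : 0 < A := by linarith
  have hA2 : 2 / ε ≤ A := by
    have h2 : 0 ≤ |M| * S / ε := by positivity
    linarith
  have hA3 : |M| * S / A ≤ ε := by
    rw [div_le_iff₀ hA0]
    have h1 : |M| * S / ε ≤ A := by
      have h2 : 0 ≤ 2 / ε := by positivity
      linarith
    rw [div_le_iff₀ hε] at h1
    linarith
  have hev : ∀ᶠ e in 𝓝[>] (0 : ℝ), ∀ j ∈ J, ∀ i ∈ (Finset.univ : Finset (ZMod (C j).k)),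
      ∀ (K k : ℕ) (p : ℂ) (t : ℝ), Rep f k p → p ≠ (C j).b i → 0 < K → it f K p = p →
        0 < t → t < e → (∀ x : ℂ, ‖x‖ < t → ‖it f K (p + x) - p‖ ≤ 4 * t) →
          A * t ≤ ‖p - (C j).b i‖ := by
    rw [Filter.eventually_all_finset]
    intro j _
    rw [Filter.eventually_all_finset]
    intro i _
    obtain ⟨t₁, ht₁, h1⟩ := hINV f (C j).k ((C j).b i) A hf (INQ_rep hZCY f (C j) i) hA0
    filter_upwards [Ioc_mem_nhdsGT ht₁] with e he K k p t hp hne hK hit ht hte h2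
    exact h1 K k p t hp hne hK hit ht (hte.trans_le he.2) h2
  have hev2 : ∀ᶠ e in 𝓝[>] (0 : ℝ), e ≤ 1 ∧ e ≤ ε := by
    have h3 : (0 : ℝ) < min 1 ε := lt_min one_pos hε
    filter_upwards [Ioc_mem_nhdsGT h3] with e he
    exact ⟨he.2.trans (min_le_left _ _), he.2.trans (min_le_right _ _)⟩
  obtain ⟨e, ⟨h1, h2⟩, he0⟩ := ((hev.and hev2).and self_mem_nhdsWithin).exists
  have he0' : 0 < e := he0
  obtain ⟨K₀, hK₀⟩ := (hSMA f e hf he0').2 (4 * e + 1)
  refine ⟨K₀ + (∑ j ∈ J, (C j).k) + 1, fun O hO => ?_⟩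
  have hlt : ∀ j ∈ J, (C j).k < O.k := by
    intro j hj
    have h3 : (C j).k ≤ ∑ j ∈ J, (C j).k :=
      Finset.single_le_sum (f := fun j => (C j).k) (fun _ _ => Nat.zero_le _) hj
    omega
  refine ⟨hlt, fun a i t ha ht hx z hz => ?_⟩
  have hrep : Rep f O.k (O.b i) := INQ_rep hZCY f O i
  -- the inequality with it
  have hx' : ∀ x : ℂ, ‖x‖ < t → ‖it f O.k (O.b i + x) - O.b i‖ ≤ 4 * ‖x‖ := by
    intro x hxt
    have h3 := hx x (by rwa [mem_ball, dist_zero_right])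
    have h4 : it f O.k (O.b i + x) - O.b i =
        ((fun z => f.eval z)^[O.k] (O.b i + x) - O.b i - x) + x := by
      simp [it]
    rw [h4]
    refine (norm_add_le _ _).trans ?_
    linarith
  -- t < e
  have hte : t < e := by
    by_contra hcon
    have hcon' : e ≤ t := not_lt.1 hcon
    have h3 := hK₀ O.k O.k (O.b i) (O.b i) (4 * e) (by omega) hrep (by
      intro y hy
      have h4 := hx' (y - O.b i) (lt_of_lt_of_le hy hcon')
      rw [add_sub_cancel] at h4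
      refine h4.trans ?_
      linarith)
    linarith
  have ht1 : t ≤ 1 := hte.le.trans h2.1
  have htε : t / ε < 1 := by
    rw [div_lt_one hε]
    exact hte.trans_le h2.2
  rw [mem_ball, dist_eq_norm] at hz
  -- the distance from the points of the fixed cycles
  have hdist : ∀ j ∈ J, ∀ l : ZMod (C j).k, A * t / 2 ≤ ‖z - (C j).b l‖ := by
    intro j hj l
    have hne : O.b i ≠ (C j).b l := by
      intro heq
      have h3 := INQ_per f O i
      rw [heq, INQ_per f (C j) l] at h3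
      exact absurd h3 (hlt j hj).ne
    have h3 := h1 j hj l (Finset.mem_univ _) O.k O.k (O.b i) t hrep hne
      (Nat.pos_of_ne_zero O.hk.out) (INQ_cyc f O i) ht hte (by
        intro x hxt
        refine (hx' x hxt).trans ?_
        linarith)
    have h4 : ‖O.b i - (C j).b l‖ ≤ ‖z - O.b i‖ + ‖z - (C j).b l‖ := by
      have h5 : O.b i - (C j).b l = -(z - O.b i) + (z - (C j).b l) := by ring
      rw [h5]
      refine (norm_add_le _ _).trans ?_
      rw [norm_neg]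
    have h6 : t / ε ≤ A * t / 2 := by
      have h7 := mul_le_mul_of_nonneg_right hA2 ht.le
      have h8 : 2 / ε * t = 2 * (t / ε) := by ring
      rw [h8] at h7
      linarith
    linarith
  refine ⟨?_, ?_, ?_⟩
  · rintro ⟨j, hj, l, hl⟩
    have h3 := hdist j hj l
    rw [hl, sub_self, norm_zero] at h3
    have h4 : 0 < A * t / 2 := by positivity
    linarith
  · have h3 : ∀ j ∈ J, t ^ 2 * ‖a j * (C j).B z‖ ≤ |M| * ((∑ l, (4 + 2 * ‖(C j).g l‖)) / A) := by
      intro j hj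
      have h4 : t ^ 2 * ‖(C j).B z‖ ≤ (∑ l, (4 + 2 * ‖(C j).g l‖)) / A := by
        unfold CY.B MPS.BB
        calc t ^ 2 * ‖∑ l, (1 / (z - (C j).b l) ^ 2 + (C j).g l / (z - (C j).b l))‖
            ≤ t ^ 2 * ∑ l, ‖1 / (z - (C j).b l) ^ 2 + (C j).g l / (z - (C j).b l)‖ :=
              mul_le_mul_of_nonneg_left (norm_sum_le _ _) (by positivity)
          _ = ∑ l, t ^ 2 * ‖1 / (z - (C j).b l) ^ 2 + (C j).g l / (z - (C j).b l)‖ :=
              Finset.mul_sum _ _ _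
          _ ≤ ∑ l, (4 + 2 * ‖(C j).g l‖) / A :=
              Finset.sum_le_sum fun l _ => INQ_term A t z _ _ hA1 ht ht1 (hdist j hj l)
          _ = (∑ l, (4 + 2 * ‖(C j).g l‖)) / A := (Finset.sum_div _ _ _).symm
      have h5 : ‖a j‖ ≤ |M| := (ha j hj).trans (le_abs_self M)
      rw [norm_mul]
      calc t ^ 2 * (‖a j‖ * ‖(C j).B z‖) = ‖a j‖ * (t ^ 2 * ‖(C j).B z‖) := by ring
        _ ≤ |M| * ((∑ l, (4 + 2 * ‖(C j).g l‖)) / A) :=
          mul_le_mul h5 h4 (by positivity) (abs_nonneg _)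
    have h6 : t ^ 2 * ‖rJ J C a z‖ ≤ ∑ j ∈ J, |M| * ((∑ l, (4 + 2 * ‖(C j).g l‖)) / A) := by
      unfold rJ
      rw [norm_neg]
      calc t ^ 2 * ‖∑ j ∈ J, a j * (C j).B z‖ ≤ t ^ 2 * ∑ j ∈ J, ‖a j * (C j).B z‖ :=
            mul_le_mul_of_nonneg_left (norm_sum_le _ _) (by positivity)
        _ = ∑ j ∈ J, t ^ 2 * ‖a j * (C j).B z‖ := Finset.mul_sum _ _ _
        _ ≤ _ := Finset.sum_le_sum h3
    refine h6.trans ?_
    rw [← Finset.mul_sum, ← Finset.sum_div]
    have h7 : ∑ j ∈ J, ∑ l, (4 + 2 * ‖(C j).g l‖) = S := by rw [hS]; rfl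
    rw [h7, ← mul_div_assoc]
    exact hA3
  · have h3 := hrad O.k (O.b i) hrep
    have h4 : ‖z‖ ≤ ‖z - O.b i‖ + ‖O.b i‖ := by
      have h5 : z = (z - O.b i) + O.b i := by ring
      calc ‖z‖ = ‖(z - O.b i) + O.b i‖ := by rw [← h5]
        _ ≤ _ := norm_add_le _ _
    linarith

end XPP
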